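import Pool.Agent.helper8.T6.SpecC2

set_option autoImplicit false

/-!
# T6, row TDF: the output of block C
-/

namespace Pool.Agent.T6

open Finset Pool.Agent.T5

theorem TDF (hTEU : TEU_stmt) : TDF_stmt := by
  classical
  rintro ⟨η, hη, h⟩
  refine ⟨η, hη, fun κ A hκ hA => ?_⟩
  obtain ⟨C, K, N₀, hC, hK, hN⟩ := h κ A hκ hA
  obtain ⟨C₁, hC₁, hsum⟩ := hTEU K hK
  refine ⟨C * C₁, max N₀ 0, ?_, fun N Y Y₂ hN0 hY hY2 hYA hYN F hF => ?_⟩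
  · nlinarith
  have hN1 : N₀ ≤ N := le_trans (le_max_left _ _) hN0
  have hN2 : 0 ≤ N := le_trans (le_max_right _ _) hN0
  have hYY : 0 ≤ Y * Y₂ := le_trans (Real.rpow_nonneg hN2 _) hYN
  have hCYY : 0 ≤ C * (Y * Y₂) := mul_nonneg (le_trans zero_le_one hC) hYY
  have hmem : ∀ x ∈ F, x.1 ∈ Icc 1 ⌊N ^ η⌋₊ := by
    intro x hx
    obtain ⟨h1, h2, _⟩ := hF x hx
    exact mem_Icc.2 ⟨h1, Nat.le_floor h2⟩
  have h1 : F.card = ∑ d ∈ Icc 1 ⌊N ^ η⌋₊, (F.filter fun x => x.1 = d).card :=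
    Finset.card_eq_sum_card_fiberwise hmem
  have h2 : ∀ d ∈ Icc 1 ⌊N ^ η⌋₊, ((F.filter fun x => x.1 = d).card : ℝ) ≤
      C * (Y * Y₂) * ∏ p ∈ d.primeFactors, gg K p (d.factorization p) := by
    intro d hd
    obtain ⟨hd1, hd2⟩ := mem_Icc.1 hd
    have hd3 : (d : ℝ) ≤ N ^ η := le_trans (by exact_mod_cast hd2) (Nat.floor_le (Real.rpow_nonneg hN2 η))
    have h3 : (F.filter fun x => x.1 = d).card = ((F.filter fun x => x.1 = d).image Prod.snd).card := by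
      refine (Finset.card_image_of_injOn ?_).symm
      intro x hx y hy hxy
      have hx1 := (Finset.mem_filter.1 (Finset.mem_coe.1 hx)).2
      have hy1 := (Finset.mem_filter.1 (Finset.mem_coe.1 hy)).2
      exact Prod.ext (hx1.trans hy1.symm) hxy
    rw [h3]
    refine hN N Y Y₂ hN1 hY hY2 hYA hYN d hd1 hd3 _ ?_
    intro t ht
    obtain ⟨x, hx, rfl⟩ := Finset.mem_image.1 ht
    obtain ⟨hxF, hxd⟩ := Finset.mem_filter.1 hx
    obtain ⟨_, _, h5, h6⟩ := hF x hxF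
    rw [hxd] at h5 h6
    exact ⟨h5, h6⟩
  calc (F.card : ℝ) = ∑ d ∈ Icc 1 ⌊N ^ η⌋₊, ((F.filter fun x => x.1 = d).card : ℝ) := by
        rw [h1, Nat.cast_sum]
    _ ≤ ∑ d ∈ Icc 1 ⌊N ^ η⌋₊, C * (Y * Y₂) * ∏ p ∈ d.primeFactors, gg K p (d.factorization p) :=
        Finset.sum_le_sum h2
    _ = C * (Y * Y₂) * ∑ d ∈ Icc 1 ⌊N ^ η⌋₊, ∏ p ∈ d.primeFactors, gg K p (d.factorization p) := by
        rw [Finset.mul_sum]
    _ ≤ C * (Y * Y₂) * C₁ := mul_le_mul_of_nonneg_left (hsum _) hCYY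
    _ = C * C₁ * (Y * Y₂) := by ring

end Pool.Agent.T6
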